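import Pool.Agent.K1H54.GC.Stm2
import Pool.Agent.K1H96.GC.Sqf

/-! # Squarefree integers in an interval that are not divisible by `q` -/

set_option autoImplicit false

open Finset

namespace Pool.Agent.K1H88.GC

open Pool.Agent.K1H54.GC

theorem t_SQF2 : S_SQF2 := by
  classical
  obtain ⟨C, h⟩ := Pool.Agent.K1H96.GC.t_SQF
  refine ⟨max C 0, le_max_right _ _, fun q A B hq hAB => ?_⟩
  have hm : C * √(B : ℝ) ≤ max C 0 * √(B : ℝ) :=
    mul_le_mul_of_nonneg_right (le_max_left _ _) (Real.sqrt_nonneg _)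
  have h0 := h A B hAB
  have h1 : ((Ioc A B).filter (fun n => Squarefree n)).card =
      ((Ioc A B).filter (fun n => Squarefree n ∧ ¬ q ∣ n)).card +
        ((Ioc A B).filter (fun n => Squarefree n ∧ q ∣ n)).card := by
    rw [← Finset.card_union_of_disjoint]
    · congr 1
      ext n
      simp only [mem_filter, mem_union]
      tauto
    · rw [Finset.disjoint_filter]
      tauto
  have h2 : ((Ioc A B).filter (fun n => Squarefree n ∧ q ∣ n)).card ≤ B / q := by
    rw [← Nat.Ioc_filter_dvd_card_eq_div B q]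
    apply Finset.card_le_card
    intro n hn
    simp only [mem_filter, mem_Ioc] at hn ⊢
    exact ⟨⟨by omega, hn.1.2⟩, hn.2.2⟩
  have h3 : (((Ioc A B).filter (fun n => Squarefree n ∧ q ∣ n)).card : ℝ) ≤ (B : ℝ) / q :=
    (Nat.cast_le.2 h2).trans Nat.cast_div_le
  have h4 : (0 : ℝ) ≤ (((Ioc A B).filter (fun n => Squarefree n ∧ q ∣ n)).card : ℝ) := Nat.cast_nonneg _
  have h5 : (((Ioc A B).filter (fun n => Squarefree n)).card : ℝ) =
      (((Ioc A B).filter (fun n => Squarefree n ∧ ¬ q ∣ n)).card : ℝ) +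
        (((Ioc A B).filter (fun n => Squarefree n ∧ q ∣ n)).card : ℝ) := by
    rw [h1]; push_cast; ring
  rw [abs_le] at h0 ⊢
  constructor
  · linarith [h0.1]
  · linarith [h0.2]

end Pool.Agent.K1H88.GC
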